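import Mathlib
import Pool.Agent.R188.ZF.Main

set_option autoImplicit false

namespace Pool.Agent.Results.MP_7a0e32_co.FractionalFails

open Pool.Agent.R188.ZF Finset

theorem isFort_of_card {F : Finset V17} (h : F.Nonempty)
    (h2 : ∀ v, v ∉ F → (F.filter (fun w => G17.Adj v w)).card ≠ 1) : IsFort G17 F := by
  refine ⟨h, fun v hv hex => ?_⟩
  obtain ⟨w, ⟨hw, ha⟩, hu⟩ := hex
  apply h2 v hv
  rw [Finset.card_eq_one]
  refine ⟨w, ?_⟩
  ext u
  rw [Finset.mem_filter, Finset.mem_singleton]
  exact ⟨fun hu' => hu u hu', fun e => by rw [e]; exact ⟨hw, ha⟩⟩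

/-- The nine forts of the fractional packing. -/
def forts : Option (Fin 2 × Fin 4) → Finset V17
  | none => {none, some (0, 4), some (0, 5), some (1, 4), some (1, 5)}
  | some (i, 0) => {some (i, 0), some (i, 2), some (i, 3), some (i, 6)}
  | some (i, 1) => {some (i, 1), some (i, 2), some (i, 3), some (i, 7)}
  | some (i, 2) => {some (i, 1), some (i, 3), some (i, 4), some (i, 6), some (i, 7)}
  | some (i, 3) => {some (i, 0), some (i, 2), some (i, 5), some (i, 6), some (i, 7)}

/-- The weights of the forts, multiplied by three. -/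
def wt : Option (Fin 2 × Fin 4) → ℕ
  | none => 2
  | some _ => 1

theorem forts_fort : ∀ a, IsFort G17 (forts a) := by
  have h : ∀ a, (forts a).Nonempty ∧
      ∀ v, v ∉ forts a → ((forts a).filter (fun w => G17.Adj v w)).card ≠ 1 := by decide
  exact fun a => isFort_of_card (h a).1 (h a).2

theorem lower : (10 : ℝ) / 3 ≤ zStar G17 := by
  have hp : ∀ v, ∑ a, (if v ∈ forts a then wt a else 0) ≤ 3 := by decide
  have hs : ∑ a, wt a = 10 := by decide
  have := le_zStar (G := G17) forts (fun a => (wt a : ℝ) / 3) forts_fort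
    (fun a => by positivity) (fun v => by
      have h1 : ((∑ a, (if v ∈ forts a then wt a else 0) : ℕ) : ℝ) ≤ 3 := by exact_mod_cast hp v
      calc ∑ a, (if v ∈ forts a then (wt a : ℝ) / 3 else 0)
          = ((∑ a, (if v ∈ forts a then wt a else 0) : ℕ) : ℝ) / 3 := by
            push_cast
            rw [Finset.sum_div]
            exact Finset.sum_congr rfl (fun a _ => by split_ifs <;> simp)
        _ ≤ 1 := by linarith)
  calc (10 : ℝ) / 3 = ∑ a, (wt a : ℝ) / 3 := by
        rw [← Finset.sum_div, ← Nat.cast_sum, hs]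
        norm_num
    _ ≤ zStar G17 := this

theorem upper : maxNullity G17 ≤ 3 := by
  unfold maxNullity
  rcases Set.eq_empty_or_nonempty {k | ∃ A : Matrix V17 V17 ℝ, InS G17 A ∧ nullity A = k} with
    h | h
  · rw [h]; simp
  · refine csSup_le h ?_
    rintro k ⟨A, hA, rfl⟩
    exact nullity_le hA

theorem connected : G17.Connected := by
  have h : ∀ a : V17, a ≠ none → G17.Adj none a ∨ ∃ b, G17.Adj none b ∧
      (G17.Adj b a ∨ ∃ c, G17.Adj b c ∧ G17.Adj c a) := by decide
  have hr : ∀ a : V17, G17.Reachable none a := by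
    intro a
    by_cases ha : a = none
    · rw [ha]
    · rcases h a ha with h1 | ⟨b, h1, h2 | ⟨c, h2, h3⟩⟩
      · exact h1.reachable
      · exact h1.reachable.trans h2.reachable
      · exact (h1.reachable.trans h2.reachable).trans h3.reachable
  exact ⟨fun a b => (hr a).symm.trans (hr b)⟩

/-- Question 2 has a negative answer: there is a connected graph `G` with seventeen vertices with
`M(G) ≤ 3` and `Z*(G) ≥ 10/3`; in particular `M(G) ≥ Z*(G)` is false in general. -/
theorem result :
    (Fintype.card V17 = 17 ∧ G17.Connected ∧ maxNullity G17 ≤ 3 ∧ (10 : ℝ) / 3 ≤ zStar G17) ∧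
    ¬ ∀ (V : Type) [Fintype V] [Nonempty V] (G : SimpleGraph V), zStar G ≤ (maxNullity G : ℝ) := by
  refine ⟨⟨by decide, connected, upper, lower⟩, fun h => ?_⟩
  have h1 := h V17 G17
  have h2 : (maxNullity G17 : ℝ) ≤ 3 := by exact_mod_cast upper
  have h3 := lower
  linarith

end Pool.Agent.Results.MP_7a0e32_co.FractionalFails
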